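import Pool.Agent.K1H12.SW.Stm

/-! # Project HE (MP_d19827_al): equal fixed point counts give a rational isomorphism -/

set_option autoImplicit false

open Finset Matrix
open Pool.Agent.K1H12.SW

namespace Pool.Agent.K1H1.HE

set_option linter.unusedSectionVars false

section

variable {Q : Type} [Group Q] [Fintype Q]
variable {X Y Z : Type} [Fintype X] [Fintype Y] [Fintype Z] [DecidableEq X] [DecidableEq Y]
  [DecidableEq Z] [MulAction Q X] [MulAction Q Y] [MulAction Q Z]

variable (Q) in
/-- equivariant matrices -/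
def EqM (a : Matrix Y X ℚ) : Prop := ∀ (q : Q) (y : Y) (x : X), a (q • y) (q • x) = a y x

variable (Q) in
/-- the average -/
noncomputable def avg : Matrix Y X ℚ →ₗ[ℚ] Matrix Y X ℚ where
  toFun a := Matrix.of fun y x => (Fintype.card Q : ℚ)⁻¹ * ∑ q : Q, a (q • y) (q • x)
  map_add' a b := by
    ext y x
    simp [Finset.sum_add_distrib, mul_add]
  map_smul' c a := by
    ext y x
    simp only [Matrix.of_apply, Matrix.smul_apply, smul_eq_mul, RingHom.id_apply,
      ← Finset.mul_sum]
    ring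

theorem avg_apply (a : Matrix Y X ℚ) (y : Y) (x : X) :
    avg Q a y x = (Fintype.card Q : ℚ)⁻¹ * ∑ q : Q, a (q • y) (q • x) := rfl

theorem avg_eqM (a : Matrix Y X ℚ) : EqM Q (avg Q a) := by
  intro r y x
  rw [avg_apply, avg_apply]
  congr 1
  simp only [smul_smul]
  exact Equiv.sum_comp (Equiv.mulRight r) (fun q : Q => a (q • y) (q • x))

theorem card_ne : (Fintype.card Q : ℚ) ≠ 0 := by
  have : 0 < Fintype.card Q := Fintype.card_pos
  exact_mod_cast this.ne'

theorem avg_of_eqM {a : Matrix Y X ℚ} (h : EqM Q a) : avg Q a = a := by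
  ext y x
  rw [avg_apply, Finset.sum_congr rfl (fun q _ => h q y x), Finset.sum_const, Finset.card_univ,
    nsmul_eq_mul, inv_mul_cancel_left₀ card_ne]

theorem EqM.mul {a : Matrix Y Z ℚ} {b : Matrix Z X ℚ} (ha : EqM Q a) (hb : EqM Q b) :
    EqM Q (a * b) := by
  intro q y x
  rw [Matrix.mul_apply, Matrix.mul_apply, ← Equiv.sum_comp (MulAction.toPerm q : Z ≃ Z)]
  exact Finset.sum_congr rfl fun z _ => by
    rw [MulAction.toPerm_apply, ha, hb]

theorem EqM.sub {a b : Matrix Y X ℚ} (ha : EqM Q a) (hb : EqM Q b) : EqM Q (a - b) := by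
  intro q y x
  rw [Matrix.sub_apply, Matrix.sub_apply, ha, hb]

theorem EqM.add {a b : Matrix Y X ℚ} (ha : EqM Q a) (hb : EqM Q b) : EqM Q (a + b) := by
  intro q y x
  rw [Matrix.add_apply, Matrix.add_apply, ha, hb]

theorem EqM.one : EqM Q (1 : Matrix X X ℚ) := by
  intro q y x
  by_cases h : y = x
  · subst h
    simp
  · have : q • y ≠ q • x := fun h' => h (MulAction.injective q h')
    rw [Matrix.one_apply_ne this, Matrix.one_apply_ne h]

theorem avg_mul {j : Matrix Y Z ℚ} (hj : EqM Q j) (t : Matrix Z X ℚ) :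
    avg Q (j * t) = j * avg Q t := by
  ext y x
  simp only [avg_apply, Matrix.mul_apply]
  have : ∀ q : Q, ∑ z, j (q • y) z * t z (q • x) = ∑ z, j y z * t (q • z) (q • x) := by
    intro q
    rw [← Equiv.sum_comp (MulAction.toPerm q : Z ≃ Z)]
    exact Finset.sum_congr rfl fun z _ => by rw [MulAction.toPerm_apply, hj]
  rw [Finset.sum_congr rfl (fun q _ => this q), Finset.sum_comm, Finset.mul_sum]
  refine Finset.sum_congr rfl fun z _ => ?_
  rw [← Finset.mul_sum]
  ring

theorem avg_mul' {k : Matrix Z X ℚ} (hk : EqM Q k) (t : Matrix Y Z ℚ) :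
    avg Q (t * k) = avg Q t * k := by
  ext y x
  simp only [avg_apply, Matrix.mul_apply]
  have : ∀ q : Q, ∑ z, t (q • y) z * k z (q • x) = ∑ z, t (q • y) (q • z) * k z x := by
    intro q
    rw [← Equiv.sum_comp (MulAction.toPerm q : Z ≃ Z)]
    exact Finset.sum_congr rfl fun z _ => by rw [MulAction.toPerm_apply, hk]
  rw [Finset.sum_congr rfl (fun q _ => this q), Finset.sum_comm, Finset.mul_sum]
  refine Finset.sum_congr rfl fun z _ => ?_
  rw [← Finset.sum_mul]
  ring

variable (Q) in
/-- equivariant matrices `a` with `a e = a` -/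
def FF (e : Matrix X X ℚ) : Submodule ℚ (Matrix Y X ℚ) where
  carrier := {a | EqM Q a ∧ a * e = a}
  add_mem' := fun {a b} ha hb => ⟨ha.1.add hb.1, by rw [Matrix.add_mul, ha.2, hb.2]⟩
  zero_mem' := ⟨fun _ _ _ => rfl, Matrix.zero_mul _⟩
  smul_mem' := fun c a ha => ⟨fun q y x => by rw [Matrix.smul_apply, Matrix.smul_apply, ha.1],
    by rw [Matrix.smul_mul, ha.2]⟩

theorem trace_matrix (P : Matrix Y X ℚ →ₗ[ℚ] Matrix Y X ℚ) :
    LinearMap.trace ℚ _ P = ∑ y, ∑ x, P (Matrix.single y x 1) y x := by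
  rw [LinearMap.trace_eq_matrix_trace ℚ (Matrix.stdBasis ℚ Y X) P, Matrix.trace,
    Fintype.sum_prod_type]
  refine Finset.sum_congr rfl fun y _ => Finset.sum_congr rfl fun x _ => ?_
  rw [Matrix.diag_apply, LinearMap.toMatrix_apply, Matrix.stdBasis_eq_single]
  rfl

theorem finrank_FF (e : Matrix X X ℚ) (he : EqM Q e) (hee : e * e = e) :
    (Module.finrank ℚ (FF (Y := Y) Q e) : ℚ) =
      (Fintype.card Q : ℚ)⁻¹ * ∑ q : Q, (Nat.card (MulAction.fixedBy Y q) : ℚ) *
        ∑ x, e x (q • x) := by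
  let R : Matrix Y X ℚ →ₗ[ℚ] Matrix Y X ℚ :=
    { toFun := fun a => a * e
      map_add' := fun a b => Matrix.add_mul a b e
      map_smul' := fun c a => Matrix.smul_mul c a e }
  let P : Matrix Y X ℚ →ₗ[ℚ] Matrix Y X ℚ := (avg Q).comp R
  have hP : ∀ a, P a = avg Q (a * e) := fun a => rfl
  have hproj : LinearMap.IsProj (FF (Y := Y) Q e) P := by
    constructor
    · intro a
      refine ⟨avg_eqM _, ?_⟩
      rw [hP, ← avg_mul' he, Matrix.mul_assoc, hee]
    · intro a ha
      rw [hP, ha.2, avg_of_eqM ha.1]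
  rw [← hproj.trace, trace_matrix]
  simp only [hP, avg_apply]
  have h1 : ∀ (y : Y) (x : X) (q : Q), (Matrix.single y x (1 : ℚ) * e) (q • y) (q • x) =
      if q • y = y then e x (q • x) else 0 := by
    intro y x q
    rw [Matrix.mul_apply]
    simp only [Matrix.single_apply]
    by_cases h : q • y = y
    · rw [if_pos h]
      rw [Finset.sum_eq_single x]
      · simp [h]
      · intro z _ hz
        simp [hz.symm]
      · simp
    · rw [if_neg h]
      apply Finset.sum_eq_zero
      intro z _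
      simp [Ne.symm h]
  have h2 : ∀ q : Q, (Nat.card (MulAction.fixedBy Y q) : ℚ) =
      ∑ y : Y, if q • y = y then (1 : ℚ) else 0 := by
    intro q
    rw [Finset.sum_boole, Nat.card_eq_fintype_card, ← Set.toFinset_card]
    congr 2
    ext y
    simp [MulAction.mem_fixedBy]
  simp only [h1, h2, ← Finset.mul_sum]
  congr 1
  have h3 : ∀ y : Y, ∑ x : X, ∑ q : Q, (if q • y = y then e x (q • x) else 0) =
      ∑ q : Q, (if q • y = y then (1 : ℚ) else 0) * ∑ x, e x (q • x) := by
    intro y
    rw [Finset.sum_comm]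
    refine Finset.sum_congr rfl fun q _ => ?_
    by_cases h : q • y = y <;> simp [h]
  rw [Finset.sum_congr rfl (fun y _ => h3 y), Finset.sum_comm]
  exact Finset.sum_congr rfl fun q _ => (Finset.sum_mul _ _ _).symm

/-- generalised inverse -/
theorem exists_ginv (j : Matrix Y X ℚ) : ∃ t : Matrix X Y ℚ, j * t * j = j := by
  obtain ⟨s, hs⟩ := (Matrix.toLin' j).rangeRestrict.exists_rightInverse_of_surjective
    (LinearMap.range_rangeRestrict _)
  obtain ⟨g, hg⟩ := LinearMap.exists_extend s
  refine ⟨LinearMap.toMatrix' g, ?_⟩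
  apply (Matrix.toLin' (R := ℚ)).injective
  rw [Matrix.toLin'_mul, Matrix.toLin'_mul, Matrix.toLin'_toMatrix']
  refine LinearMap.ext fun v => ?_
  have h1 : g (Matrix.toLin' j v) = s ((Matrix.toLin' j).rangeRestrict v) := by
    rw [← hg]
    rfl
  have h2 := LinearMap.congr_fun hs ((Matrix.toLin' j).rangeRestrict v)
  simp only [LinearMap.comp_apply, LinearMap.id_apply] at h2 ⊢
  rw [h1]
  exact congrArg Subtype.val h2

theorem main (h : ∀ q : Q, Nat.card (MulAction.fixedBy X q) = Nat.card (MulAction.fixedBy Y q)) :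
    ∃ j : Matrix Y X ℚ, EqM Q j ∧ ∀ v, j *ᵥ v = 0 → v = 0 := by
  classical
  -- choose `j` with the smallest kernel
  let S : Set ℕ := {n | ∃ j : Matrix Y X ℚ, EqM Q j ∧
    Module.finrank ℚ (LinearMap.ker (Matrix.toLin' j)) = n}
  have hS : S.Nonempty := ⟨_, 0, fun _ _ _ => rfl, rfl⟩
  obtain ⟨j, hj, hjn⟩ := Nat.sInf_mem hS
  obtain ⟨t0, ht0⟩ := exists_ginv j
  set t := avg Q t0 with ht
  have htE : EqM Q t := avg_eqM _
  have hjt : j * t * j = j := by
    rw [ht, ← avg_mul hj, ← avg_mul' hj, ht0, avg_of_eqM hj]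
  set e : Matrix X X ℚ := 1 - t * j with he
  have heE : EqM Q e := EqM.one.sub (htE.mul hj)
  have hje : j * e = 0 := by
    rw [he, Matrix.mul_sub, Matrix.mul_one, ← Matrix.mul_assoc, hjt, sub_self]
  have hee : e * e = e := by
    calc e * e = (1 - t * j) * e := by rw [he]
      _ = e - t * (j * e) := by rw [Matrix.sub_mul, Matrix.one_mul, Matrix.mul_assoc]
      _ = e := by rw [hje, Matrix.mul_zero, sub_zero]
  refine ⟨j, hj, ?_⟩
  by_contra hcon
  push Not at hcon
  obtain ⟨v0, hv0, hv0'⟩ := hcon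
  have he0 : e ≠ 0 := by
    intro h0
    apply hv0'
    have : e *ᵥ v0 = v0 := by
      rw [he, Matrix.sub_mulVec, Matrix.one_mulVec, ← Matrix.mulVec_mulVec, hv0,
        Matrix.mulVec_zero, sub_zero]
    rw [← this, h0, Matrix.zero_mulVec]
  -- the two spaces have the same dimension
  have hfr : Module.finrank ℚ (FF (Y := X) Q e) = Module.finrank ℚ (FF (Y := Y) Q e) := by
    have h1 := finrank_FF (Y := X) e heE hee
    have h2 := finrank_FF (Y := Y) e heE hee
    simp only [h] at h1
    exact_mod_cast h1.trans h2.symm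
  let Θ : FF (Y := X) Q e →ₗ[ℚ] FF (Y := Y) Q e :=
    { toFun := fun a => ⟨j * a.1, hj.mul a.2.1, by rw [Matrix.mul_assoc, a.2.2]⟩
      map_add' := fun a b => by
        apply Subtype.ext
        exact Matrix.mul_add j a.1 b.1
      map_smul' := fun c a => by
        apply Subtype.ext
        exact Matrix.mul_smul j c a.1 }
  have hnotinj : ¬ Function.Injective Θ := by
    intro hinj
    have h1 : Θ ⟨e, heE, hee⟩ = Θ 0 := by
      apply Subtype.ext
      show j * e = j * 0
      rw [hje, Matrix.mul_zero]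
    have h2 := hinj h1
    exact he0 (congrArg Subtype.val h2)
  have hnotsurj : ¬ Function.Surjective Θ := fun hs =>
    hnotinj ((LinearMap.injective_iff_surjective_of_finrank_eq_finrank hfr).mpr hs)
  simp only [Function.Surjective] at hnotsurj
  push Not at hnotsurj
  obtain ⟨b, hb⟩ := hnotsurj
  -- the part of `b` outside the image of `j`
  set c : Matrix Y X ℚ := b.1 - j * t * b.1 with hc
  have hc0 : c ≠ 0 := by
    intro h0
    refine hb ⟨t * b.1, htE.mul b.2.1, by rw [Matrix.mul_assoc, b.2.2]⟩ ?_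
    apply Subtype.ext
    show j * (t * b.1) = b.1
    rw [← Matrix.mul_assoc]
    exact (sub_eq_zero.mp h0).symm
  have hcE : EqM Q c := b.2.1.sub ((hj.mul htE).mul b.2.1)
  have hce : c * e = c := by
    rw [hc, Matrix.sub_mul, Matrix.mul_assoc (j * t), b.2.2]
  have hjtc : j * t * c = 0 := by
    rw [hc, Matrix.mul_sub, ← Matrix.mul_assoc, ← Matrix.mul_assoc, hjt, sub_self]
  -- the larger map
  have hker : ∀ v, (j + c) *ᵥ v = 0 → j *ᵥ v = 0 := by
    intro v hv
    have h1 : (j * t * (j + c)) *ᵥ v = 0 := by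
      rw [← Matrix.mulVec_mulVec, hv, Matrix.mulVec_zero]
    rwa [Matrix.mul_add, hjt, hjtc, add_zero] at h1
  have hlt : Module.finrank ℚ (LinearMap.ker (Matrix.toLin' (j + c))) <
      Module.finrank ℚ (LinearMap.ker (Matrix.toLin' j)) := by
    apply Submodule.finrank_lt_finrank_of_lt
    rw [SetLike.lt_iff_le_and_exists]
    constructor
    · intro v hv
      rw [LinearMap.mem_ker, Matrix.toLin'_apply] at hv ⊢
      exact hker v hv
    · have : ∃ v, c *ᵥ v ≠ 0 := by
        by_contra hcon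
        push Not at hcon
        apply hc0
        apply (Matrix.toLin' (R := ℚ)).injective
        refine LinearMap.ext fun v => ?_
        rw [Matrix.toLin'_apply, hcon v]
        simp
      obtain ⟨v, hv⟩ := this
      refine ⟨e *ᵥ v, ?_, ?_⟩
      · rw [LinearMap.mem_ker, Matrix.toLin'_apply, Matrix.mulVec_mulVec, hje,
          Matrix.zero_mulVec]
      · rw [LinearMap.mem_ker, Matrix.toLin'_apply, Matrix.mulVec_mulVec, Matrix.add_mul, hje,
          hce, zero_add]
        exact hv
  have hmin : sInf S ≤ Module.finrank ℚ (LinearMap.ker (Matrix.toLin' (j + c))) :=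
    Nat.sInf_le ⟨j + c, hj.add hcE, rfl⟩
  omega

end

/-- clearing denominators -/
theorem exists_int {X Y : Type} [Fintype X] [Fintype Y] (j : Matrix Y X ℚ) :
    ∃ (D : ℕ) (J : Matrix Y X ℤ), 0 < D ∧ ∀ y x, (J y x : ℚ) = D * j y x := by
  classical
  let D : ℕ := ∏ p : Y × X, (j p.1 p.2).den
  have hD : 0 < D := Finset.prod_pos fun p _ => (j p.1 p.2).den_pos
  have hdiv : ∀ y x, (j y x).den ∣ D := fun y x =>
    Finset.dvd_prod_of_mem (fun p : Y × X => (j p.1 p.2).den) (Finset.mem_univ (y, x))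
  refine ⟨D, fun y x => (D / (j y x).den : ℕ) * (j y x).num, hD, fun y x => ?_⟩
  have h1 : (((D / (j y x).den : ℕ) : ℤ) : ℚ) * (j y x).den = D := by
    have := Nat.div_mul_cancel (hdiv y x)
    exact_mod_cast congrArg (fun n : ℕ => (n : ℚ)) this
  have h2 : (j y x) * (j y x).den = (j y x).num := Rat.mul_den_eq_num _
  push_cast
  rw [← h2, mul_comm (j y x), ← mul_assoc]
  push_cast at h1
  rw [h1]

/-- PIECE RAT -/
theorem t_RAT : S_RAT := by
  classical
  intro Q _ _ X Y _ _ _ _ h
  have := Fintype.ofFinite Q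
  have := Fintype.ofFinite X
  have := Fintype.ofFinite Y
  obtain ⟨j, hjE, hj⟩ := main (Q := Q) (X := X) (Y := Y) h
  obtain ⟨D, J, hD, hJ⟩ := exists_int j
  have hD0 : (D : ℚ) ≠ 0 := by exact_mod_cast hD.ne'
  have hJE : ∀ (q : Q) (y : Y) (x : X), J (q • y) (q • x) = J y x := by
    intro q y x
    have : (J (q • y) (q • x) : ℚ) = J y x := by rw [hJ, hJ, hjE]
    exact_mod_cast this
  have hcard : Fintype.card X = Fintype.card Y := by
    have h1 := h 1
    have hX : MulAction.fixedBy X (1 : Q) = Set.univ := by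
      ext x; simp
    have hY : MulAction.fixedBy Y (1 : Q) = Set.univ := by
      ext x; simp
    rw [hX, hY] at h1
    simpa [Nat.card_eq_fintype_card] using h1
  let σ : X ≃ Y := Fintype.equivOfCardEq hcard
  let K : Matrix Y Y ℤ := J.submatrix id σ.symm
  have hdet : K.det ≠ 0 := by
    intro h0
    have h1 : (K.map (Int.castRingHom ℚ)).det = 0 := by
      have := RingHom.map_det (Int.castRingHom ℚ) K
      rw [h0, map_zero] at this
      exact this.symm
    obtain ⟨v, hv, hv'⟩ := Matrix.exists_mulVec_eq_zero_iff.mpr h1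
    apply hv
    have h2 : j *ᵥ (v ∘ σ) = 0 := by
      funext y
      have h3 := congrFun hv' y
      have h4 : ∑ x, (D : ℚ) * j y x * v (σ x) = 0 := by
        rw [← σ.symm.sum_comp]
        simp only [Matrix.mulVec, dotProduct, Pi.zero_apply] at h3
        rw [← h3]
        refine Finset.sum_congr rfl fun z _ => ?_
        simp only [K, Matrix.map_apply, Matrix.submatrix_apply, id, Equiv.apply_symm_apply,
          Int.coe_castRingHom, hJ]
      simp only [Matrix.mulVec, dotProduct, Pi.zero_apply, Function.comp]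
      have h5 : (D : ℚ) * ∑ x, j y x * v (σ x) = 0 := by
        rw [Finset.mul_sum, ← h4]
        exact Finset.sum_congr rfl fun x _ => by ring
      exact (mul_eq_zero.mp h5).resolve_left hD0
    have h3 := hj _ h2
    funext y
    have := congrFun h3 (σ.symm y)
    simpa using this
  refine ⟨Matrix.mulVecLin J, K.det.natAbs, ?_, ?_, Int.natAbs_pos.mpr hdet, ?_⟩
  · intro q f
    funext y
    show ∑ x, J y x * f (q⁻¹ • x) = ∑ x, J (q⁻¹ • y) x * f x
    rw [← Equiv.sum_comp (MulAction.toPerm q : X ≃ X)]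
    refine Finset.sum_congr rfl fun x _ => ?_
    rw [MulAction.toPerm_apply, inv_smul_smul]
    congr 1
    have := hJE q (q⁻¹ • y) x
    rw [smul_inv_smul] at this
    exact this
  · rw [← LinearMap.ker_eq_bot, LinearMap.ker_eq_bot']
    intro v hv
    have h1 : K *ᵥ (v ∘ σ.symm) = 0 := by
      funext y
      have := congrFun hv y
      simp only [Matrix.mulVecLin_apply, Matrix.mulVec, dotProduct, Pi.zero_apply] at this ⊢
      rw [← this, ← σ.symm.sum_comp]
      rfl
    have h2 : v ∘ σ.symm = 0 := by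
      by_contra hne
      exact hdet (Matrix.exists_mulVec_eq_zero_iff.mp ⟨_, hne, h1⟩)
    funext x
    have := congrFun h2 (σ x)
    simpa using this
  · intro y
    -- the adjugate
    let w : Y → ℤ := K.adjugate *ᵥ (K.det.sign • y)
    refine ⟨w ∘ σ, ?_⟩
    have h1 : K *ᵥ w = K.det.natAbs • y := by
      show K *ᵥ (K.adjugate *ᵥ (K.det.sign • y)) = _
      rw [Matrix.mulVec_mulVec, Matrix.mul_adjugate, Matrix.smul_mulVec, Matrix.one_mulVec,
        smul_smul, Int.mul_sign_self]
      simp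
    rw [← h1]
    funext z
    simp only [Matrix.mulVecLin_apply, Matrix.mulVec, dotProduct]
    rw [← σ.symm.sum_comp]
    refine Finset.sum_congr rfl fun u _ => ?_
    simp [K]

end Pool.Agent.K1H1.HE
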